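import Pool.Agent.LibTri68.Lac5

open Filter Topology Finset Polynomial

namespace Pool.Agent.LibTwo46

/-- `∏_{k ≤ i < M} (X - b^(2i))` -/
noncomputable def Bp (b k M : ℕ) : ℤ[X] := ∏ i ∈ Finset.Ico k M, (X - C ((b : ℤ) ^ (2 * i)))

/-- value of `Bp b k M` at a real number -/
noncomputable def Bv (b k M : ℕ) (z : ℝ) : ℝ := ∏ i ∈ Finset.Ico k M, (z - (b : ℝ) ^ (2 * i))

/-- coefficients of `Bp b k M` -/
noncomputable def bc (b k M i : ℕ) : ℤ := (Bp b k M).coeff i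

lemma Bp_natDegree (b k M : ℕ) : (Bp b k M).natDegree ≤ M - k := by
  unfold Bp
  refine (natDegree_prod_le _ _).trans ?_
  simp only [natDegree_X_sub_C]
  simp

lemma B_sum (b k M : ℕ) (z : ℝ) :
    ∑ i ∈ range (M - k + 1), (bc b k M i : ℝ) * z ^ i = Bv b k M z := by
  have h := Polynomial.aeval_eq_sum_range' (p := Bp b k M) (n := M - k + 1)
    (Nat.lt_succ_of_le (Bp_natDegree b k M)) z
  have h2 : (Polynomial.aeval z) (Bp b k M) = Bv b k M z := by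
    unfold Bp Bv
    simp [map_prod]
  rw [← h2, h]
  apply Finset.sum_congr rfl
  intro i _
  simp [bc]

lemma B_sum_one (b k M : ℕ) :
    ∑ i ∈ range (M - k + 1), (bc b k M i : ℝ) = Bv b k M 1 := by
  have := B_sum b k M 1
  simpa using this

lemma Bv_zero (b k M m : ℕ) (h1 : k ≤ m) (h2 : m < M) : Bv b k M ((b : ℝ) ^ (2 * m)) = 0 := by
  unfold Bv
  exact Finset.prod_eq_zero (Finset.mem_Ico.2 ⟨h1, h2⟩) (sub_self _)

lemma Bv_bounds (b k M m : ℕ) (hb : 2 ≤ b) (hm : M ≤ m) :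
    0 < Bv b k M ((b : ℝ) ^ (2 * m)) ∧
      Bv b k M ((b : ℝ) ^ (2 * m)) ≤ ((b : ℝ) ^ (2 * m)) ^ (M - k) := by
  have hb1 : (1 : ℝ) < b := by exact_mod_cast (by omega : 1 < b)
  have hp : ∀ i ∈ Finset.Ico k M, (0 : ℝ) < (b : ℝ) ^ (2 * m) - (b : ℝ) ^ (2 * i) := by
    intro i hi
    have h1 := (Finset.mem_Ico.1 hi).2
    have : (b : ℝ) ^ (2 * i) < (b : ℝ) ^ (2 * m) := pow_lt_pow_right₀ hb1 (by omega)
    linarith
  unfold Bv
  refine ⟨Finset.prod_pos hp, ?_⟩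
  have := Finset.prod_le_prod (fun i hi => (hp i hi).le)
    (g := fun _ => (b : ℝ) ^ (2 * m)) (fun i hi => by
      have : (0 : ℝ) ≤ (b : ℝ) ^ (2 * i) := by positivity
      linarith)
  simpa using this

end Pool.Agent.LibTwo46
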