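import Pool.Agent.LibTwo46.A

open Filter Topology Finset
open Pool.Agent.LibTri77 Pool.Agent.LibTri68

namespace Pool.Agent.LibTwo46

/-- combination of weight 3 values at the points `x ± b^i y` -/
noncomputable def H0 (b k M : ℕ) (x y : ℝ) : ℝ :=
  ∑ i ∈ range (M - k + 1), (bc b k M i : ℝ) *
    (U 3 (x + (b : ℝ) ^ i * y) + U 3 (x - (b : ℝ) ^ i * y)) - Bv b k M 1 * (2 * U 3 x)

noncomputable def H1 (b k M : ℕ) (x y : ℝ) : ℝ :=
  2 * Real.pi * ∑ i ∈ range (M - k + 1), (bc b k M i : ℝ) *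
    ((b : ℝ) ^ i * (U 2 (x + (b : ℝ) ^ i * y) - U 2 (x - (b : ℝ) ^ i * y)))

noncomputable def H2 (b k M : ℕ) (x y : ℝ) : ℝ :=
  4 * Real.pi ^ 2 * ∑ i ∈ range (M - k + 1), (bc b k M i : ℝ) *
    (((b : ℝ) ^ i) ^ 2 * (U1 (x + (b : ℝ) ^ i * y) + U1 (x - (b : ℝ) ^ i * y)))

noncomputable def H3 (b k M : ℕ) (x y : ℝ) : ℝ :=
  -(4 * Real.pi ^ 2) * ∑ i ∈ range (M - k + 1), (bc b k M i : ℝ) *
    (((b : ℝ) ^ i) ^ 3 * (ct (x + (b : ℝ) ^ i * y) - ct (x - (b : ℝ) ^ i * y)))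

lemma arg (b d i : ℕ) (x y : ℝ) (hb : 2 ≤ b) (hi : i ≤ d) (h0 : 0 < y)
    (hx : y ≤ x / (2 * (b : ℝ) ^ d)) : 0 < (b : ℝ) ^ i * y ∧ (b : ℝ) ^ i * y ≤ x / 2 := by
  have hb1 : (1 : ℝ) ≤ b := by exact_mod_cast (by omega : 1 ≤ b)
  have hbi : (0 : ℝ) < (b : ℝ) ^ i := by positivity
  have hbr : (0 : ℝ) < (b : ℝ) ^ d := by positivity
  refine ⟨mul_pos hbi h0, ?_⟩
  have h1 : (b : ℝ) ^ i ≤ (b : ℝ) ^ d := pow_le_pow_right₀ hb1 hi
  calc (b : ℝ) ^ i * y ≤ (b : ℝ) ^ d * (x / (2 * (b : ℝ) ^ d)) :=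
        mul_le_mul h1 hx h0.le hbr.le
    _ = x / 2 := by field_simp

lemma lin_deriv (c x y : ℝ) : HasDerivAt (fun y : ℝ => x + c * y) c y := by
  simpa using ((hasDerivAt_id y).const_mul c).const_add x

lemma lin_deriv' (c x y : ℝ) : HasDerivAt (fun y : ℝ => x - c * y) (-c) y := by
  simpa using ((hasDerivAt_id y).const_mul c).const_sub x

lemma H0_deriv (b k M : ℕ) (x y : ℝ) : HasDerivAt (H0 b k M x) (H1 b k M x y) y := by
  unfold H0 H1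
  rw [Finset.mul_sum]
  refine HasDerivAt.sub_const _ (HasDerivAt.fun_sum ?_)
  intro i _
  have h1 := (U_deriv 2 le_rfl (x + (b : ℝ) ^ i * y)).comp y (lin_deriv ((b : ℝ) ^ i) x y)
  have h2 := (U_deriv 2 le_rfl (x - (b : ℝ) ^ i * y)).comp y (lin_deriv' ((b : ℝ) ^ i) x y)
  have h3 := (h1.add h2).const_mul (bc b k M i : ℝ)
  refine h3.congr_deriv ?_
  ring

lemma H1_deriv (b k M : ℕ) (x y : ℝ) (hb : 2 ≤ b) (_hx0 : 0 < x) (hx1 : x ≤ 1 / 2) (h0 : 0 < y)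
    (hy : y ≤ x / (2 * (b : ℝ) ^ (M - k))) : HasDerivAt (H1 b k M x) (H2 b k M x y) y := by
  unfold H1 H2
  rw [show 4 * Real.pi ^ 2 * ∑ i ∈ range (M - k + 1), (bc b k M i : ℝ) *
    (((b : ℝ) ^ i) ^ 2 * (U1 (x + (b : ℝ) ^ i * y) + U1 (x - (b : ℝ) ^ i * y))) = 2 * Real.pi *
      ∑ i ∈ range (M - k + 1), (bc b k M i : ℝ) * ((b : ℝ) ^ i *
        (2 * Real.pi * U1 (x + (b : ℝ) ^ i * y) * (b : ℝ) ^ i -
          2 * Real.pi * U1 (x - (b : ℝ) ^ i * y) * -(b : ℝ) ^ i)) by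
    rw [Finset.mul_sum, Finset.mul_sum]
    apply Finset.sum_congr rfl
    intro i _
    ring]
  refine HasDerivAt.const_mul _ (HasDerivAt.fun_sum ?_)
  intro i hi
  have hb := arg b (M - k) i x y hb (Nat.lt_succ_iff.1 (Finset.mem_range.1 hi)) h0 hy
  have h1 := (U2_deriv' (x + (b : ℝ) ^ i * y) (by linarith) (by linarith)).comp y
    (lin_deriv ((b : ℝ) ^ i) x y)
  have h2 := (U2_deriv' (x - (b : ℝ) ^ i * y) (by linarith) (by linarith)).comp y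
    (lin_deriv' ((b : ℝ) ^ i) x y)
  exact ((h1.sub h2).const_mul ((b : ℝ) ^ i)).const_mul (bc b k M i : ℝ)

lemma H2_deriv (b k M : ℕ) (x y : ℝ) (hb : 2 ≤ b) (_hx0 : 0 < x) (hx1 : x ≤ 1 / 2) (h0 : 0 < y)
    (hy : y ≤ x / (2 * (b : ℝ) ^ (M - k))) : HasDerivAt (H2 b k M x) (H3 b k M x y) y := by
  unfold H2 H3
  rw [show -(4 * Real.pi ^ 2) * ∑ i ∈ range (M - k + 1), (bc b k M i : ℝ) *
    (((b : ℝ) ^ i) ^ 3 * (ct (x + (b : ℝ) ^ i * y) - ct (x - (b : ℝ) ^ i * y))) = 4 * Real.pi ^ 2 *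
      ∑ i ∈ range (M - k + 1), (bc b k M i : ℝ) * (((b : ℝ) ^ i) ^ 2 *
        (-ct (x + (b : ℝ) ^ i * y) * (b : ℝ) ^ i + -ct (x - (b : ℝ) ^ i * y) * -(b : ℝ) ^ i)) by
    rw [Finset.mul_sum, Finset.mul_sum]
    apply Finset.sum_congr rfl
    intro i _
    ring]
  refine HasDerivAt.const_mul _ (HasDerivAt.fun_sum ?_)
  intro i hi
  have hb := arg b (M - k) i x y hb (Nat.lt_succ_iff.1 (Finset.mem_range.1 hi)) h0 hy
  have h1 := (U1_deriv (x + (b : ℝ) ^ i * y) (by linarith) (by linarith)).comp y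
    (lin_deriv ((b : ℝ) ^ i) x y)
  have h2 := (U1_deriv (x - (b : ℝ) ^ i * y) (by linarith) (by linarith)).comp y
    (lin_deriv' ((b : ℝ) ^ i) x y)
  exact ((h1.add h2).const_mul (((b : ℝ) ^ i) ^ 2)).const_mul (bc b k M i : ℝ)

lemma H0_lim (b k M : ℕ) (x : ℝ) : Tendsto (H0 b k M x) (𝓝[>] 0) (𝓝 0) := by
  have h1 : Tendsto (H0 b k M x) (𝓝 0) (𝓝 (H0 b k M x 0)) := (H0_deriv b k M x 0).continuousAt
  have h2 : H0 b k M x 0 = 0 := by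
    unfold H0
    simp only [mul_zero, add_zero, sub_zero]
    rw [← Finset.sum_mul, B_sum_one b k M]
    ring
  rw [h2] at h1
  exact h1.mono_left nhdsWithin_le_nhds

lemma H1_lim (b k M : ℕ) (x : ℝ) : Tendsto (H1 b k M x) (𝓝[>] 0) (𝓝 0) := by
  have hc : Continuous (H1 b k M x) := by
    unfold H1
    have := U2_cont
    fun_prop
  have h1 := hc.tendsto 0
  have h2 : H1 b k M x 0 = 0 := by
    unfold H1
    simp
  rw [h2] at h1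
  exact h1.mono_left nhdsWithin_le_nhds

lemma H2_lim (b k M : ℕ) (x : ℝ) (hx0 : 0 < x) (hx1 : x ≤ 1 / 2)
    (hv : Bv b k M ((b : ℝ) ^ 2) * U1 x = 0) : Tendsto (H2 b k M x) (𝓝[>] 0) (𝓝 0) := by
  have hU : ContinuousAt U1 x := (U1_deriv x hx0 (by linarith)).continuousAt
  have h2 : ∀ i ∈ range (M - k + 1), Tendsto (fun y : ℝ => (bc b k M i : ℝ) *
      (((b : ℝ) ^ i) ^ 2 * (U1 (x + (b : ℝ) ^ i * y) + U1 (x - (b : ℝ) ^ i * y)))) (𝓝 0)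
      (𝓝 ((bc b k M i : ℝ) * (((b : ℝ) ^ i) ^ 2 * (U1 x + U1 x)))) := by
    intro i _
    have h3 : Tendsto (fun y : ℝ => x + (b : ℝ) ^ i * y) (𝓝 0) (𝓝 x) := by
      have h4 : Continuous (fun y : ℝ => x + (b : ℝ) ^ i * y) := by fun_prop
      simpa using h4.tendsto 0
    have h3' : Tendsto (fun y : ℝ => x - (b : ℝ) ^ i * y) (𝓝 0) (𝓝 x) := by
      have h4 : Continuous (fun y : ℝ => x - (b : ℝ) ^ i * y) := by fun_prop
      simpa using h4.tendsto 0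
    exact (((hU.tendsto.comp h3).add (hU.tendsto.comp h3')).const_mul _).const_mul _
  have h7 := (tendsto_finsetSum _ h2).const_mul (4 * Real.pi ^ 2)
  have e : 4 * Real.pi ^ 2 * ∑ i ∈ range (M - k + 1),
      (bc b k M i : ℝ) * (((b : ℝ) ^ i) ^ 2 * (U1 x + U1 x)) = 0 := by
    have e1 : ∑ i ∈ range (M - k + 1), (bc b k M i : ℝ) * (((b : ℝ) ^ i) ^ 2 * (U1 x + U1 x)) =
        2 * (Bv b k M ((b : ℝ) ^ 2) * U1 x) := by
      rw [← B_sum b k M, Finset.sum_mul, Finset.mul_sum]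
      apply Finset.sum_congr rfl
      intro i _
      rw [show ((b : ℝ) ^ 2) ^ i = ((b : ℝ) ^ i) ^ 2 by rw [← pow_mul, ← pow_mul, mul_comm]]
      ring
    rw [e1, hv]
    ring
  rw [e] at h7
  exact h7.mono_left nhdsWithin_le_nhds

end Pool.Agent.LibTwo46
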