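import Pool.Agent.LibTwo46.B

open Filter Topology Finset
open Pool.Agent.LibTri77 Pool.Agent.LibTri68

namespace Pool.Agent.LibTwo46

lemma pair_eq (a Y : ℝ) (h1 : a + Y ≠ 0) (h2 : a - Y ≠ 0) :
    1 / (a + Y) - 1 / (a - Y) = -(2 * Y) * (1 / (a ^ 2 - Y ^ 2)) := by
  have h3 : a ^ 2 - Y ^ 2 ≠ 0 := by
    rw [show a ^ 2 - Y ^ 2 = (a + Y) * (a - Y) by ring]
    exact mul_ne_zero h1 h2
  rw [mul_one_div, div_sub_div _ _ h1 h2, div_eq_div_iff (mul_ne_zero h1 h2) h3]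
  ring

lemma ct_pair (x Y : ℝ) (h0 : 0 < Y) (hY : Y ≤ x / 2) (hx : x ≤ 1 / 2) :
    HasSum (fun n : ℕ => -(2 * Y) * (1 / (((n : ℝ) + 1 - x) ^ 2 - Y ^ 2)) +
      -(2 * Y) * (1 / (((n : ℝ) + 1 + x) ^ 2 - Y ^ 2)))
      (ct (x + Y) - ct (x - Y) - -(2 * Y) * (1 / (x ^ 2 - Y ^ 2))) := by
  have h1 := ct_hasSum (x + Y) (by linarith) (by linarith)
  have h2 := ct_hasSum (x - Y) (by linarith) (by linarith)
  have h3 := h1.sub h2
  have e : ct (x + Y) - 1 / (x + Y + 0) - (ct (x - Y) - 1 / (x - Y + 0)) =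
      ct (x + Y) - ct (x - Y) - -(2 * Y) * (1 / (x ^ 2 - Y ^ 2)) := by
    rw [← pair_eq x Y (by linarith) (by linarith), add_zero, add_zero]
    ring
  rw [e] at h3
  refine h3.congr_fun ?_
  intro n
  have hn : (0 : ℝ) ≤ n := Nat.cast_nonneg n
  have e1 := pair_eq (x - ((n : ℝ) + 1)) Y (by intro h; linarith) (by intro h; linarith)
  have e2 := pair_eq (x + ((n : ℝ) + 1)) Y (by intro h; linarith) (by intro h; linarith)
  rw [show ((n : ℝ) + 1 - x) ^ 2 = (x - ((n : ℝ) + 1)) ^ 2 by ring,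
    show ((n : ℝ) + 1 + x) ^ 2 = (x + ((n : ℝ) + 1)) ^ 2 by ring, ← e1, ← e2,
    show x + Y + -((n : ℝ) + 1) = x - ((n : ℝ) + 1) + Y by ring,
    show x - Y + -((n : ℝ) + 1) = x - ((n : ℝ) + 1) - Y by ring,
    show x + Y + ((n : ℝ) + 1) = x + ((n : ℝ) + 1) + Y by ring,
    show x - Y + ((n : ℝ) + 1) = x + ((n : ℝ) + 1) - Y by ring]
  ring

/-- the contribution of a pole at distance `u` -/
noncomputable def g (b k M : ℕ) (u y : ℝ) : ℝ :=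
  ∑ i ∈ range (M - k + 1), (bc b k M i : ℝ) * (((b : ℝ) ^ i) ^ 4 * (1 / (u ^ 2 - ((b : ℝ) ^ i * y) ^ 2)))

lemma H3_hasSum (b k M : ℕ) (x y : ℝ) (hb : 2 ≤ b) (hx1 : x ≤ 1 / 2) (h0 : 0 < y)
    (hy : y ≤ x / (2 * (b : ℝ) ^ (M - k))) :
    HasSum (fun n : ℕ => 8 * Real.pi ^ 2 * y * (g b k M ((n : ℝ) + 1 - x) y +
      g b k M ((n : ℝ) + 1 + x) y)) (H3 b k M x y - 8 * Real.pi ^ 2 * y * g b k M x y) := by
  have h1 : ∀ i ∈ range (M - k + 1), HasSum (fun n : ℕ => (bc b k M i : ℝ) * (((b : ℝ) ^ i) ^ 3 *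
      (-(2 * ((b : ℝ) ^ i * y)) * (1 / (((n : ℝ) + 1 - x) ^ 2 - ((b : ℝ) ^ i * y) ^ 2)) +
      -(2 * ((b : ℝ) ^ i * y)) * (1 / (((n : ℝ) + 1 + x) ^ 2 - ((b : ℝ) ^ i * y) ^ 2)))))
      ((bc b k M i : ℝ) * (((b : ℝ) ^ i) ^ 3 * (ct (x + (b : ℝ) ^ i * y) -
        ct (x - (b : ℝ) ^ i * y) - -(2 * ((b : ℝ) ^ i * y)) *
          (1 / (x ^ 2 - ((b : ℝ) ^ i * y) ^ 2))))) := by
    intro i hi
    have hbb := arg b (M - k) i x y hb (Nat.lt_succ_iff.1 (Finset.mem_range.1 hi)) h0 hy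
    exact ((ct_pair x _ hbb.1 hbb.2 hx1).mul_left _).mul_left _
  have h2 := (hasSum_sum h1).mul_left (-(4 * Real.pi ^ 2))
  have e : -(4 * Real.pi ^ 2) * ∑ i ∈ range (M - k + 1), (bc b k M i : ℝ) * (((b : ℝ) ^ i) ^ 3 *
      (ct (x + (b : ℝ) ^ i * y) - ct (x - (b : ℝ) ^ i * y) - -(2 * ((b : ℝ) ^ i * y)) *
          (1 / (x ^ 2 - ((b : ℝ) ^ i * y) ^ 2)))) =
      H3 b k M x y - 8 * Real.pi ^ 2 * y * g b k M x y := by
    unfold H3 g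
    rw [Finset.mul_sum, Finset.mul_sum, Finset.mul_sum, ← Finset.sum_sub_distrib]
    apply Finset.sum_congr rfl
    intro i _
    ring
  rw [e] at h2
  refine h2.congr_fun ?_
  intro n
  unfold g
  rw [← Finset.sum_add_distrib, Finset.mul_sum, Finset.mul_sum]
  apply Finset.sum_congr rfl
  intro i _
  ring

lemma g_hasSum (b k M : ℕ) (x u y : ℝ) (hb : 2 ≤ b) (hx0 : 0 < x) (h0 : 0 < y)
    (hy : y ≤ x / (2 * (b : ℝ) ^ (M - k))) (hu : x ≤ u) :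
    HasSum (fun l : ℕ => (y / u) ^ (2 * l) / u ^ 2 * Bv b k M ((b : ℝ) ^ (2 * (l + 2))))
      (g b k M u y) := by
  have hu0 : 0 < u := lt_of_lt_of_le hx0 hu
  have h1 : ∀ i ∈ range (M - k + 1), HasSum (fun l : ℕ => (bc b k M i : ℝ) * (((b : ℝ) ^ i) ^ 4 *
      (((((b : ℝ) ^ i * y) / u) ^ 2) ^ l / u ^ 2)))
      ((bc b k M i : ℝ) * (((b : ℝ) ^ i) ^ 4 * (1 / (u ^ 2 - ((b : ℝ) ^ i * y) ^ 2)))) := by
    intro i hi
    have hbb := arg b (M - k) i x y hb (Nat.lt_succ_iff.1 (Finset.mem_range.1 hi)) h0 hy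
    have h2 : ((b : ℝ) ^ i * y) / u ≤ 1 / 2 := by
      rw [div_le_iff₀ hu0]
      linarith [hbb.2]
    have h2' : 0 ≤ ((b : ℝ) ^ i * y) / u := by
      have := hbb.1
      positivity
    have h3 : (((b : ℝ) ^ i * y) / u) ^ 2 < 1 := by nlinarith
    have h4 := (hasSum_geometric_of_lt_one (by positivity) h3).div_const (u ^ 2)
    have h5 := (h4.mul_left (((b : ℝ) ^ i) ^ 4)).mul_left (bc b k M i : ℝ)
    have e8 : (1 - (((b : ℝ) ^ i * y) / u) ^ 2)⁻¹ / u ^ 2 = 1 / (u ^ 2 - ((b : ℝ) ^ i * y) ^ 2) := by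
      rw [← one_div, div_div]
      congr 1
      field_simp
    rw [e8] at h5
    exact h5
  have h6 := hasSum_sum h1
  unfold g
  refine h6.congr_fun ?_
  intro l
  rw [← B_sum b k M, Finset.mul_sum]
  apply Finset.sum_congr rfl
  intro i _
  have e1 : ((((b : ℝ) ^ i * y) / u) ^ 2) ^ l = ((b : ℝ) ^ i) ^ (2 * l) * (y / u) ^ (2 * l) := by
    rw [← pow_mul, mul_div_assoc, mul_pow]
  have e2 : ((b : ℝ) ^ (2 * (l + 2))) ^ i = ((b : ℝ) ^ i) ^ (2 * l) * ((b : ℝ) ^ i) ^ 4 := by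
    rw [← pow_add, ← pow_mul, ← pow_mul]
    congr 1
    ring
  rw [e1, e2]
  ring

lemma g_bounds (b k s : ℕ) (x u y : ℝ) (hb : 2 ≤ b) (hk : k ≤ 2) (hx0 : 0 < x) (h0 : 0 < y)
    (hy : y ≤ x / (2 * (b : ℝ) ^ (s + 2 - k))) (hu : x ≤ u) :
    0 < g b k (s + 2) u y ∧ g b k (s + 2) u y ≤
      4 / 3 * ((b : ℝ) ^ (s + 2 - k)) ^ (2 * (s + 2)) * (y / x) ^ (2 * s) * (1 / u ^ 2) := by
  have hb0 : (0 : ℝ) < b := by exact_mod_cast (by omega : 0 < b)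
  have hu0 : 0 < u := lt_of_lt_of_le hx0 hu
  have hs := g_hasSum b k (s + 2) x u y hb hx0 h0 hy hu
  set d : ℕ := s + 2 - k with hd
  have hbd : (0 : ℝ) < (b : ℝ) ^ d := by positivity
  have hz : ∀ l, l < s → (y / u) ^ (2 * l) / u ^ 2 *
      Bv b k (s + 2) ((b : ℝ) ^ (2 * (l + 2))) = 0 := by
    intro l hl
    rw [Bv_zero b k (s + 2) (l + 2) (by omega) (by omega), mul_zero]
  have hs2 : HasSum (fun l : ℕ => (y / u) ^ (2 * (l + s)) / u ^ 2 *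
      Bv b k (s + 2) ((b : ℝ) ^ (2 * (l + s + 2)))) (g b k (s + 2) u y) := by
    rw [← hasSum_nat_add_iff' s] at hs
    rw [Finset.sum_eq_zero (fun l hl => hz l (Finset.mem_range.1 hl)), sub_zero] at hs
    exact hs
  have hterm : ∀ l : ℕ, 0 < (y / u) ^ (2 * (l + s)) / u ^ 2 *
      Bv b k (s + 2) ((b : ℝ) ^ (2 * (l + s + 2))) := fun l =>
    mul_pos (by positivity) (Bv_bounds b k (s + 2) (l + s + 2) hb (by omega)).1
  constructor
  · have h1 := hs2.summable.sum_add_tsum_nat_add 1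
    rw [hs2.tsum_eq] at h1
    rw [← h1]
    refine add_pos_of_pos_of_nonneg ?_ (tsum_nonneg fun l => (hterm _).le)
    simpa using hterm 0
  · have hY : (b : ℝ) ^ d * y / u ≤ 1 / 2 := by
      rw [div_le_iff₀ hu0]
      have : (b : ℝ) ^ d * y ≤ x / 2 := by
        calc (b : ℝ) ^ d * y ≤ (b : ℝ) ^ d * (x / (2 * (b : ℝ) ^ d)) :=
              mul_le_mul_of_nonneg_left hy hbd.le
          _ = x / 2 := by field_simp
      linarith
    have hY0 : 0 ≤ (b : ℝ) ^ d * y / u := by positivity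
    have hg : HasSum (fun l : ℕ => ((b : ℝ) ^ d) ^ (2 * (s + 2)) * (y / x) ^ (2 * s) *
        (1 / u ^ 2) * ((1 / 4 : ℝ) ^ l))
        (((b : ℝ) ^ d) ^ (2 * (s + 2)) * (y / x) ^ (2 * s) * (1 / u ^ 2) * (1 - 1 / 4)⁻¹) :=
      (hasSum_geometric_of_lt_one (by norm_num) (by norm_num)).mul_left _
    have hle := hasSum_le (fun l => ?_) hs2 hg
    · refine hle.trans (le_of_eq ?_)
      ring
    · have hA := (Bv_bounds b k (s + 2) (l + s + 2) hb (by omega)).2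
      rw [← hd] at hA
      have h1 : (y / u) ^ (2 * s) ≤ (y / x) ^ (2 * s) := by
        apply pow_le_pow_left₀ (by positivity)
        exact div_le_div_of_nonneg_left h0.le hx0 hu
      have h2 : ((b : ℝ) ^ d * y / u) ^ (2 * l) ≤ (1 / 4 : ℝ) ^ l := by
        rw [pow_mul]
        apply pow_le_pow_left₀ (by positivity)
        nlinarith
      calc (y / u) ^ (2 * (l + s)) / u ^ 2 * Bv b k (s + 2) ((b : ℝ) ^ (2 * (l + s + 2)))
          ≤ (y / u) ^ (2 * (l + s)) / u ^ 2 * ((b : ℝ) ^ (2 * (l + s + 2))) ^ d :=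
            mul_le_mul_of_nonneg_left hA (by positivity)
        _ = ((b : ℝ) ^ d) ^ (2 * (s + 2)) * (y / u) ^ (2 * s) * (1 / u ^ 2) *
              ((b : ℝ) ^ d * y / u) ^ (2 * l) := by
            rw [mul_div_assoc, mul_pow, ← pow_mul, ← pow_mul, ← pow_mul,
              show 2 * (l + s + 2) * d = d * (2 * (s + 2)) + d * (2 * l) by ring, pow_add,
              show 2 * (l + s) = 2 * s + 2 * l by ring, pow_add]
            ring
        _ ≤ ((b : ℝ) ^ d) ^ (2 * (s + 2)) * (y / x) ^ (2 * s) * (1 / u ^ 2) *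
              ((1 / 4 : ℝ) ^ l) := by
            apply mul_le_mul _ h2 (by positivity) (by positivity)
            apply mul_le_mul_of_nonneg_right _ (by positivity)
            exact mul_le_mul_of_nonneg_left h1 (by positivity)

lemma H3_bounds (b k s : ℕ) (x y c : ℝ) (hb : 2 ≤ b) (hk : k ≤ 2) (hx0 : 0 < x) (hx1 : x ≤ 1 / 2)
    (hc : ∀ n : ℕ, 1 / ((n : ℝ) + 1 - x) ^ 2 + 1 / ((n : ℝ) + 1 + x) ^ 2 ≤
      c * (1 / ((n : ℝ) + 1) ^ 2)) (h0 : 0 < y)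
    (hy : y ≤ x / (2 * (b : ℝ) ^ (s + 2 - k))) :
    0 < H3 b k (s + 2) x y ∧ H3 b k (s + 2) x y ≤
      32 / 3 * Real.pi ^ 2 * (1 / x ^ 2 + c * (Real.pi ^ 2 / 6)) *
        ((b : ℝ) ^ (s + 2 - k)) ^ (2 * (s + 2)) / x ^ (2 * s) * y ^ (2 * s + 1) := by
  have hb0 : (0 : ℝ) < b := by exact_mod_cast (by omega : 0 < b)
  have hpi := Real.pi_pos
  have hs := H3_hasSum b k (s + 2) x y hb hx1 h0 hy
  have hu1 : ∀ n : ℕ, x ≤ (n : ℝ) + 1 - x := by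
    intro n
    have hn : (0 : ℝ) ≤ n := Nat.cast_nonneg n
    linarith
  have hu2 : ∀ n : ℕ, x ≤ (n : ℝ) + 1 + x := by
    intro n
    have hn : (0 : ℝ) ≤ n := Nat.cast_nonneg n
    linarith
  have hG := fun u hu => g_bounds b k s x u y hb hk hx0 h0 hy hu
  have hgx := hG x le_rfl
  set Q : ℝ := 4 / 3 * ((b : ℝ) ^ (s + 2 - k)) ^ (2 * (s + 2)) * (y / x) ^ (2 * s) with hQ
  have hQ0 : 0 < Q := by positivity
  have hnn : 0 ≤ H3 b k (s + 2) x y - 8 * Real.pi ^ 2 * y * g b k (s + 2) x y := by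
    refine hs.nonneg fun n => ?_
    have h1 := (hG _ (hu1 n)).1
    have h2 := (hG _ (hu2 n)).1
    positivity
  have hp : 0 < 8 * Real.pi ^ 2 * y * g b k (s + 2) x y := by
    have := hgx.1
    positivity
  refine ⟨by linarith, ?_⟩
  have h2 : HasSum (fun n : ℕ => 8 * Real.pi ^ 2 * y * Q * c * (1 / ((n : ℝ) + 1) ^ 2))
      (8 * Real.pi ^ 2 * y * Q * c * (Real.pi ^ 2 / 6)) := zeta_two_le.mul_left _
  have h3 := hasSum_le (fun n => ?_) hs h2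
  · have h4 : 8 * Real.pi ^ 2 * y * g b k (s + 2) x y ≤ 8 * Real.pi ^ 2 * y * (Q * (1 / x ^ 2)) :=
      mul_le_mul_of_nonneg_left hgx.2 (by positivity)
    have h5 : H3 b k (s + 2) x y ≤ 8 * Real.pi ^ 2 * y * Q *
        (1 / x ^ 2 + c * (Real.pi ^ 2 / 6)) := by
      calc H3 b k (s + 2) x y ≤ 8 * Real.pi ^ 2 * y * (Q * (1 / x ^ 2)) +
            8 * Real.pi ^ 2 * y * Q * c * (Real.pi ^ 2 / 6) := by linarith
        _ = _ := by ring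
    refine h5.trans (le_of_eq ?_)
    rw [hQ, div_pow, pow_succ]
    ring
  · have h4 := (hG _ (hu1 n)).2
    have h5 := (hG _ (hu2 n)).2
    have h6 := hc n
    calc 8 * Real.pi ^ 2 * y * (g b k (s + 2) ((n : ℝ) + 1 - x) y +
          g b k (s + 2) ((n : ℝ) + 1 + x) y)
        ≤ 8 * Real.pi ^ 2 * y * (Q * (1 / ((n : ℝ) + 1 - x) ^ 2) +
          Q * (1 / ((n : ℝ) + 1 + x) ^ 2)) :=
          mul_le_mul_of_nonneg_left (add_le_add h4 h5) (by positivity)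
      _ = 8 * Real.pi ^ 2 * y * Q * (1 / ((n : ℝ) + 1 - x) ^ 2 +
          1 / ((n : ℝ) + 1 + x) ^ 2) := by ring
      _ ≤ 8 * Real.pi ^ 2 * y * Q * (c * (1 / ((n : ℝ) + 1) ^ 2)) :=
          mul_le_mul_of_nonneg_left h6 (by positivity)
      _ = _ := by ring

lemma H0_bounds (b k s : ℕ) (x y c : ℝ) (hb : 2 ≤ b) (hk : k ≤ 2) (hx0 : 0 < x) (hx1 : x ≤ 1 / 2)
    (hc0 : 0 ≤ c)
    (hc : ∀ n : ℕ, 1 / ((n : ℝ) + 1 - x) ^ 2 + 1 / ((n : ℝ) + 1 + x) ^ 2 ≤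
      c * (1 / ((n : ℝ) + 1) ^ 2)) (hv : Bv b k (s + 2) ((b : ℝ) ^ 2) * U1 x = 0) (h0 : 0 < y)
    (hy : y ≤ x / (2 * (b : ℝ) ^ (s + 2 - k))) :
    0 < H0 b k (s + 2) x y ∧ H0 b k (s + 2) x y ≤
      4 / 9 * Real.pi ^ 2 * (1 / x ^ 2 + c * (Real.pi ^ 2 / 6)) * x ^ 4 *
        ((b : ℝ) ^ (s + 2 - k) * y / x) ^ (2 * (s + 2)) := by
  have hb0 : (0 : ℝ) < b := by exact_mod_cast (by omega : 0 < b)
  have hpi := Real.pi_pos
  set X : ℝ := x / (2 * (b : ℝ) ^ (s + 2 - k)) with hX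
  set C : ℝ := 32 / 3 * Real.pi ^ 2 * (1 / x ^ 2 + c * (Real.pi ^ 2 / 6)) *
        ((b : ℝ) ^ (s + 2 - k)) ^ (2 * (s + 2)) / x ^ (2 * s) with hC
  have hC0 : 0 < C := by positivity
  have k2 := integ (H2 b k (s + 2) x) (H3 b k (s + 2) x) X C (2 * s + 1)
    (fun z hz hz2 => H2_deriv b k (s + 2) x z hb hx0 hx1 hz hz2)
    (H2_lim b k (s + 2) x hx0 hx1 hv)
    (fun z hz hz2 => H3_bounds b k s x z c hb hk hx0 hx1 hc hz hz2)
  have k1 := integ (H1 b k (s + 2) x) (H2 b k (s + 2) x) X _ (2 * s + 2)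
    (fun z hz hz2 => H1_deriv b k (s + 2) x z hb hx0 hx1 hz hz2) (H1_lim b k (s + 2) x) k2
  have k0 := integ (H0 b k (s + 2) x) (H1 b k (s + 2) x) X _ (2 * s + 3)
    (fun z _ _ => H0_deriv b k (s + 2) x z) (H0_lim b k (s + 2) x) k1
  have h := k0 y h0 hy
  refine ⟨h.1, h.2.trans ?_⟩
  have hy0 : 0 < y ^ (2 * s + 4) := by positivity
  have e : 4 / 9 * Real.pi ^ 2 * (1 / x ^ 2 + c * (Real.pi ^ 2 / 6)) * x ^ 4 *
        ((b : ℝ) ^ (s + 2 - k) * y / x) ^ (2 * (s + 2)) = C / 24 * y ^ (2 * s + 4) := by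
    rw [hC, div_pow, mul_pow, show 2 * (s + 2) = 2 * s + 4 by ring, pow_add x (2 * s) 4]
    field_simp
    ring
  rw [e]
  apply mul_le_mul_of_nonneg_right _ hy0.le
  rw [div_div, div_div]
  apply div_le_div_of_nonneg_left hC0.le (by norm_num)
  push_cast
  have hs : (0 : ℝ) ≤ s := Nat.cast_nonneg s
  have h2 : (2 : ℝ) ≤ 2 * s + 1 + 1 := by linarith
  have h3 : (3 : ℝ) ≤ 2 * s + 2 + 1 := by linarith
  have h4 : (4 : ℝ) ≤ 2 * s + 3 + 1 := by linarith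
  nlinarith [mul_nonneg (sub_nonneg.2 h2) (sub_nonneg.2 h3),
    mul_le_mul h3 h4 (by norm_num) (by linarith)]

end Pool.Agent.LibTwo46
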