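import Pool.Agent.LibTwo46.C

open Filter Topology Finset
open Pool.Agent.LibTri77 Pool.Agent.LibTri68

namespace Pool.Agent.LibTwo46

lemma C3_refl (x : ℝ) : C3 (1 - x) = C3 x := by
  unfold C3
  apply tsum_congr
  intro n
  congr 1
  rw [show 2 * Real.pi * ((n : ℝ) + 1) * (1 - x) =
    ((n + 1 : ℕ) : ℝ) * (2 * Real.pi) - 2 * Real.pi * ((n : ℝ) + 1) * x by push_cast; ring]
  rw [Real.cos_nat_mul_two_pi_sub]

lemma C3_half : C3 (1 / 2) = -(3 / 4) * C3 0 := by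
  have h := distribution 2 (by norm_num)
  simp only [Finset.sum_range_succ, Finset.sum_range_zero, zero_add] at h
  push_cast at h
  norm_num at h
  linarith

lemma C3_sixth : C3 (1 / 6) = 1 / 3 * C3 0 := by
  have h2 := C3_half
  have h3 := distribution 3 (by norm_num)
  have h6 := distribution 6 (by norm_num)
  simp only [Finset.sum_range_succ, Finset.sum_range_zero, zero_add] at h3 h6
  push_cast at h3 h6
  have e1 : C3 (2 / 3) = C3 (1 / 3) := by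
    rw [← C3_refl (1 / 3)]
    norm_num
  have e2 : C3 (5 / 6) = C3 (1 / 6) := by
    rw [← C3_refl (1 / 6)]
    norm_num
  norm_num at h3 h6
  rw [e1] at h3
  rw [e2] at h6
  have e3 : (1 : ℝ) / 3 = 1 / 3 := rfl
  have e4 : C3 (2 / 3) = C3 (1 / 3) := e1
  rw [e4] at h6
  linarith

lemma U1_sixth : U1 (1 / 6) = 0 := by
  unfold U1
  rw [show Real.pi * (1 / 6) = Real.pi / 6 by ring, Real.sin_pi_div_six]
  norm_num

lemma c_sixth (n : ℕ) : 1 / ((n : ℝ) + 1 - 1 / 6) ^ 2 + 1 / ((n : ℝ) + 1 + 1 / 6) ^ 2 ≤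
    61 / 25 * (1 / ((n : ℝ) + 1) ^ 2) := by
  have hn : (0 : ℝ) ≤ n := Nat.cast_nonneg n
  have h1 : 1 / ((n : ℝ) + 1 - 1 / 6) ^ 2 ≤ 36 / 25 * (1 / ((n : ℝ) + 1) ^ 2) := by
    rw [show 36 / 25 * (1 / ((n : ℝ) + 1) ^ 2) = 1 / (5 / 6 * ((n : ℝ) + 1)) ^ 2 by
      field_simp; norm_num]
    apply one_div_le_one_div_of_le (by positivity)
    apply pow_le_pow_left₀ (by positivity)
    linarith
  have h2 : 1 / ((n : ℝ) + 1 + 1 / 6) ^ 2 ≤ 1 / ((n : ℝ) + 1) ^ 2 := by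
    apply one_div_le_one_div_of_le (by positivity)
    apply pow_le_pow_left₀ (by positivity)
    linarith
  linarith

lemma c_half (n : ℕ) : 1 / ((n : ℝ) + 1 - 1 / 2) ^ 2 + 1 / ((n : ℝ) + 1 + 1 / 2) ^ 2 ≤
    5 * (1 / ((n : ℝ) + 1) ^ 2) := by
  have hn : (0 : ℝ) ≤ n := Nat.cast_nonneg n
  have h1 : 1 / ((n : ℝ) + 1 - 1 / 2) ^ 2 ≤ 4 * (1 / ((n : ℝ) + 1) ^ 2) := by
    rw [show 4 * (1 / ((n : ℝ) + 1) ^ 2) = 1 / (1 / 2 * ((n : ℝ) + 1)) ^ 2 by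
      field_simp; norm_num]
    apply one_div_le_one_div_of_le (by positivity)
    apply pow_le_pow_left₀ (by positivity)
    linarith
  have h2 : 1 / ((n : ℝ) + 1 + 1 / 2) ^ 2 ≤ 1 / ((n : ℝ) + 1) ^ 2 := by
    apply one_div_le_one_div_of_le (by positivity)
    apply pow_le_pow_left₀ (by positivity)
    linarith
  linarith

/-- integer combination of integers -/
lemma comb_int (b k M : ℕ) (K : ℝ) (f : ℕ → ℝ)
    (h : ∀ i : ℕ, i < M - k + 1 → ∃ z : ℤ, K * f i = z) :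
    ∃ t : ℤ, K * ∑ i ∈ range (M - k + 1), (bc b k M i : ℝ) * f i = t := by
  rw [Finset.mul_sum]
  have h1 : ∀ i ∈ range (M - k + 1), ∃ z : ℤ, K * ((bc b k M i : ℝ) * f i) = z := by
    intro i hi
    obtain ⟨z, hz⟩ := h i (Finset.mem_range.1 hi)
    refine ⟨bc b k M i * z, ?_⟩
    push_cast
    rw [← hz]
    ring
  choose! w hw using h1
  refine ⟨∑ i ∈ range (M - k + 1), w i, ?_⟩
  push_cast
  exact Finset.sum_congr rfl fun i hi => hw i hi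

/-- main theorem at `1/6` -/
theorem main_sixth (b r D : ℕ) (y : ℝ) (hb : 2 ≤ b) (hr : 1 ≤ r) (hy0 : 0 < y)
    (hy : 12 * (b : ℝ) ^ (r - 1) * y ≤ 1) (hD : 1 ≤ D)
    (hz : ∃ z : ℤ, (D : ℝ) * (C3 0 / Real.pi ^ 3) = z)
    (h : ∀ i : ℕ, i < r → ∃ z : ℤ, (D : ℝ) * ((C3 (1 / 6 + (b : ℝ) ^ i * y) +
      C3 (1 / 6 - (b : ℝ) ^ i * y)) / Real.pi ^ 3) = z) :
    76 ≤ D * (6 * (b : ℝ) ^ (r - 1) * y) ^ (2 * r + 2) := by
  have hb0 : (0 : ℝ) < b := by exact_mod_cast (by omega : 0 < b)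
  have hpi := Real.pi_pos
  have hD0 : (0 : ℝ) < D := by exact_mod_cast (by omega : 0 < D)
  obtain ⟨s, rfl⟩ : ∃ s, r = s + 1 := ⟨r - 1, by omega⟩
  rw [Nat.add_sub_cancel] at hy ⊢
  have hbs : (0 : ℝ) < (b : ℝ) ^ s := by positivity
  have hd : s + 2 - 2 = s := by omega
  obtain ⟨hF1, hF2⟩ := H0_bounds b 2 s (1 / 6) y (61 / 25) hb le_rfl (by norm_num) (by norm_num)
    (by norm_num) c_sixth (by rw [U1_sixth, mul_zero]) hy0 (by
      rw [hd, le_div_iff₀ (by positivity)]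
      linarith)
  rw [hd] at hF2
  obtain ⟨z, hz⟩ := hz
  obtain ⟨t, ht⟩ := comb_int b 2 (s + 2) D (fun i => (C3 (1 / 6 + (b : ℝ) ^ i * y) +
      C3 (1 / 6 - (b : ℝ) ^ i * y)) / Real.pi ^ 3) (fun i hi => h i (by omega))
  have hint : 3 * ((D : ℝ) * (H0 b 2 (s + 2) (1 / 6) y / Real.pi ^ 3)) =
      ((-3 * t + 2 * (∑ i ∈ range (s + 2 - 2 + 1), bc b 2 (s + 2) i) * z : ℤ) : ℝ) := by
    unfold H0
    simp only [Int.cast_add, Int.cast_mul, Int.cast_sum, Int.cast_neg, Int.cast_ofNat]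
    rw [← ht, ← B_sum_one b 2 (s + 2), ← hz]
    have e1 : ∑ i ∈ range (s + 2 - 2 + 1), (bc b 2 (s + 2) i : ℝ) *
        (U 3 (1 / 6 + (b : ℝ) ^ i * y) + U 3 (1 / 6 - (b : ℝ) ^ i * y)) =
        -(Real.pi ^ 3 * ∑ i ∈ range (s + 2 - 2 + 1), (bc b 2 (s + 2) i : ℝ) *
        ((C3 (1 / 6 + (b : ℝ) ^ i * y) + C3 (1 / 6 - (b : ℝ) ^ i * y)) / Real.pi ^ 3)) := by
      rw [Finset.mul_sum, ← Finset.sum_neg_distrib]
      apply Finset.sum_congr rfl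
      intro i _
      rw [U_three, U_three]
      field_simp
      ring
    rw [e1, U_three, C3_sixth]
    generalize ∑ i ∈ range (s + 2 - 2 + 1), (bc b 2 (s + 2) i : ℝ) *
      ((C3 (1 / 6 + (b : ℝ) ^ i * y) + C3 (1 / 6 - (b : ℝ) ^ i * y)) / Real.pi ^ 3) = S
    field_simp
    ring
  have hpos : 0 < 3 * ((D : ℝ) * (H0 b 2 (s + 2) (1 / 6) y / Real.pi ^ 3)) := by positivity
  have ht1 : 1 ≤ 3 * ((D : ℝ) * (H0 b 2 (s + 2) (1 / 6) y / Real.pi ^ 3)) := by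
    rw [hint] at hpos ⊢
    exact_mod_cast (by exact_mod_cast hpos : (0 : ℤ) < _)
  set T : ℝ := (6 * (b : ℝ) ^ s * y) ^ (2 * (s + 1) + 2) with hT
  have hT0 : 0 < T := by positivity
  have eT : ((b : ℝ) ^ s * y / (1 / 6)) ^ (2 * (s + 2)) = T := by
    rw [hT]
    congr 1
    ring
  rw [eT] at hF2
  have h2 : Real.pi ^ 3 ≤ 3 * (D : ℝ) * H0 b 2 (s + 2) (1 / 6) y := by
    have h3 : 0 < Real.pi ^ 3 := by positivity
    have h4 : 3 * ((D : ℝ) * (H0 b 2 (s + 2) (1 / 6) y / Real.pi ^ 3)) =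
      3 * (D : ℝ) * H0 b 2 (s + 2) (1 / 6) y / Real.pi ^ 3 := by ring
    rw [h4, le_div_iff₀ h3, one_mul] at ht1
    exact ht1
  have h3 : Real.pi ^ 3 ≤ 3 * (D : ℝ) * (4 / 9 * Real.pi ^ 2 *
      (1 / (1 / 6) ^ 2 + 61 / 25 * (Real.pi ^ 2 / 6)) * (1 / 6) ^ 4 * T) :=
    h2.trans (mul_le_mul_of_nonneg_left hF2 (by positivity))
  have h4 : 972 * Real.pi ≤ (36 + 61 / 150 * Real.pi ^ 2) * (D * T) := by
    have h5 : 0 < Real.pi ^ 2 := by positivity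
    have h6 : Real.pi ^ 2 * (972 * Real.pi) ≤
        Real.pi ^ 2 * ((36 + 61 / 150 * Real.pi ^ 2) * (D * T)) := by
      nlinarith [h3]
    exact le_of_mul_le_mul_left h6 h5
  have hlo := Real.pi_gt_d2
  have hhi := Real.pi_lt_d2
  have h7 : Real.pi ^ 2 ≤ 3.15 ^ 2 := pow_le_pow_left₀ hpi.le hhi.le 2
  have hDT : 0 < (D : ℝ) * T := by positivity
  have h8 : (36 + 61 / 150 * Real.pi ^ 2) * (D * T) ≤ (36 + 61 / 150 * 3.15 ^ 2) * (D * T) :=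
    mul_le_mul_of_nonneg_right (by linarith) hDT.le
  by_contra hcon
  push Not at hcon
  have h9 : (36 + 61 / 150 * 3.15 ^ 2) * ((D : ℝ) * T) < (36 + 61 / 150 * 3.15 ^ 2) * 76 :=
    mul_lt_mul_of_pos_left hcon (by norm_num)
  norm_num at h8 h9
  linarith

/-- main theorem at `1/2` -/
theorem main_half (b r D : ℕ) (y : ℝ) (hb : 2 ≤ b) (hr : 2 ≤ r) (hy0 : 0 < y)
    (hy : 4 * (b : ℝ) ^ (r - 1) * y ≤ 1) (hD : 1 ≤ D)
    (hz : ∃ z : ℤ, (D : ℝ) * (C3 0 / Real.pi ^ 3) = z)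
    (h : ∀ i : ℕ, i < r → ∃ z : ℤ, (D : ℝ) * (C3 (1 / 2 + (b : ℝ) ^ i * y) / Real.pi ^ 3) = z) :
    4 ≤ D * (2 * (b : ℝ) ^ (r - 1) * y) ^ (2 * r) := by
  have hb0 : (0 : ℝ) < b := by exact_mod_cast (by omega : 0 < b)
  have hpi := Real.pi_pos
  have hD0 : (0 : ℝ) < D := by exact_mod_cast (by omega : 0 < D)
  obtain ⟨s, rfl⟩ : ∃ s, r = s + 2 := ⟨r - 2, by omega⟩
  have hd : s + 2 - 1 = s + 1 := by omega
  rw [hd] at hy ⊢
  have hbs : (0 : ℝ) < (b : ℝ) ^ (s + 1) := by positivity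
  obtain ⟨hF1, hF2⟩ := H0_bounds b 1 s (1 / 2) y 5 hb (by norm_num) (by norm_num) (by norm_num)
    (by norm_num) c_half (by
      have := Bv_zero b 1 (s + 2) 1 le_rfl (by omega)
      rw [mul_one] at this
      rw [this, zero_mul]) hy0 (by
      rw [hd, le_div_iff₀ (by positivity)]
      linarith)
  rw [hd] at hF2
  obtain ⟨z, hz⟩ := hz
  obtain ⟨t, ht⟩ := comb_int b 1 (s + 2) D (fun i => C3 (1 / 2 + (b : ℝ) ^ i * y) / Real.pi ^ 3)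
    (fun i hi => h i (by omega))
  have hint : 2 * ((D : ℝ) * (H0 b 1 (s + 2) (1 / 2) y / Real.pi ^ 3)) =
      ((-4 * t - 3 * (∑ i ∈ range (s + 2 - 1 + 1), bc b 1 (s + 2) i) * z : ℤ) : ℝ) := by
    unfold H0
    simp only [Int.cast_sub, Int.cast_mul, Int.cast_sum, Int.cast_neg, Int.cast_ofNat]
    rw [← ht, ← B_sum_one b 1 (s + 2), ← hz]
    have e1 : ∑ i ∈ range (s + 2 - 1 + 1), (bc b 1 (s + 2) i : ℝ) *
        (U 3 (1 / 2 + (b : ℝ) ^ i * y) + U 3 (1 / 2 - (b : ℝ) ^ i * y)) =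
        -(Real.pi ^ 3 * (2 * ∑ i ∈ range (s + 2 - 1 + 1), (bc b 1 (s + 2) i : ℝ) *
        (C3 (1 / 2 + (b : ℝ) ^ i * y) / Real.pi ^ 3))) := by
      rw [Finset.mul_sum, Finset.mul_sum, ← Finset.sum_neg_distrib]
      apply Finset.sum_congr rfl
      intro i _
      have e2 : C3 (1 / 2 - (b : ℝ) ^ i * y) = C3 (1 / 2 + (b : ℝ) ^ i * y) := by
        rw [← C3_refl (1 / 2 + (b : ℝ) ^ i * y)]
        congr 1
        ring
      rw [U_three, U_three, e2]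
      field_simp
      ring
    rw [e1, U_three, C3_half]
    generalize ∑ i ∈ range (s + 2 - 1 + 1), (bc b 1 (s + 2) i : ℝ) *
      (C3 (1 / 2 + (b : ℝ) ^ i * y) / Real.pi ^ 3) = S
    field_simp
    ring
  have hpos : 0 < 2 * ((D : ℝ) * (H0 b 1 (s + 2) (1 / 2) y / Real.pi ^ 3)) := by positivity
  have ht1 : 1 ≤ 2 * ((D : ℝ) * (H0 b 1 (s + 2) (1 / 2) y / Real.pi ^ 3)) := by
    rw [hint] at hpos ⊢
    exact_mod_cast (by exact_mod_cast hpos : (0 : ℤ) < _)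
  set T : ℝ := (2 * (b : ℝ) ^ (s + 1) * y) ^ (2 * (s + 2)) with hT
  have hT0 : 0 < T := by positivity
  have eT : ((b : ℝ) ^ (s + 1) * y / (1 / 2)) ^ (2 * (s + 2)) = T := by
    rw [hT]
    congr 1
    ring
  rw [eT] at hF2
  have h2 : Real.pi ^ 3 ≤ 2 * (D : ℝ) * H0 b 1 (s + 2) (1 / 2) y := by
    have h3 : 0 < Real.pi ^ 3 := by positivity
    have h4 : 2 * ((D : ℝ) * (H0 b 1 (s + 2) (1 / 2) y / Real.pi ^ 3)) =
      2 * (D : ℝ) * H0 b 1 (s + 2) (1 / 2) y / Real.pi ^ 3 := by ring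
    rw [h4, le_div_iff₀ h3, one_mul] at ht1
    exact ht1
  have h3 : Real.pi ^ 3 ≤ 2 * (D : ℝ) * (4 / 9 * Real.pi ^ 2 *
      (1 / (1 / 2) ^ 2 + 5 * (Real.pi ^ 2 / 6)) * (1 / 2) ^ 4 * T) :=
    h2.trans (mul_le_mul_of_nonneg_left hF2 (by positivity))
  have h4 : 18 * Real.pi ≤ (4 + 5 / 6 * Real.pi ^ 2) * (D * T) := by
    have h5 : 0 < Real.pi ^ 2 := by positivity
    have h6 : Real.pi ^ 2 * (18 * Real.pi) ≤
        Real.pi ^ 2 * ((4 + 5 / 6 * Real.pi ^ 2) * (D * T)) := by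
      nlinarith [h3]
    exact le_of_mul_le_mul_left h6 h5
  have hlo := Real.pi_gt_d2
  have hhi := Real.pi_lt_d2
  have h7 : Real.pi ^ 2 ≤ 3.15 ^ 2 := pow_le_pow_left₀ hpi.le hhi.le 2
  have hDT : 0 < (D : ℝ) * T := by positivity
  have h8 : (4 + 5 / 6 * Real.pi ^ 2) * (D * T) ≤ (4 + 5 / 6 * 3.15 ^ 2) * (D * T) :=
    mul_le_mul_of_nonneg_right (by linarith) hDT.le
  by_contra hcon
  push Not at hcon
  have h9 : (4 + 5 / 6 * 3.15 ^ 2) * ((D : ℝ) * T) < (4 + 5 / 6 * 3.15 ^ 2) * 4 :=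
    mul_lt_mul_of_pos_left hcon (by norm_num)
  norm_num at h8 h9
  linarith

end Pool.Agent.LibTwo46
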