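import Pool.Agent.LibTwo46.D

open Filter Topology Finset
open Pool.Agent.LibTri77 Pool.Agent.LibTri68

namespace Pool.Agent.LibTwo46

/-- irrationality criterion -/
theorem criterion_sixth
    (h : ∀ ε : ℝ, 0 < ε → ∃ (b r E : ℕ) (y : ℝ), 2 ≤ b ∧ 1 ≤ r ∧ 0 < y ∧
      12 * (b : ℝ) ^ (r - 1) * y ≤ 1 ∧ 1 ≤ E ∧
      (E : ℝ) * (6 * (b : ℝ) ^ (r - 1) * y) ^ (2 * r + 2) ≤ ε ∧
      ∀ i : ℕ, i < r → ∃ z : ℤ, (E : ℝ) * ((C3 (1 / 6 + (b : ℝ) ^ i * y) +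
        C3 (1 / 6 - (b : ℝ) ^ i * y)) / Real.pi ^ 3) = z) :
    Irrational (C3 0 / Real.pi ^ 3) := by
  rintro ⟨t, ht⟩
  have hd : (0 : ℝ) < t.den := by exact_mod_cast t.pos
  obtain ⟨b, r, E, y, hb, hr, hy0, hy, hE, hle, hi⟩ := h (1 / t.den) (by positivity)
  have h1 := main_sixth b r (t.den * E) y hb hr hy0 hy (Nat.mul_pos t.pos hE) (by
      refine ⟨t.num * E, ?_⟩
      rw [← ht]
      have : (t : ℝ) = t.num / t.den := Rat.cast_def t
      rw [this]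
      push_cast
      field_simp) (by
      intro i hir
      obtain ⟨z, hz⟩ := hi i hir
      refine ⟨t.den * z, ?_⟩
      push_cast
      rw [← hz]
      ring)
  push_cast at h1
  have h2 : (t.den : ℝ) * ((E : ℝ) * (6 * (b : ℝ) ^ (r - 1) * y) ^ (2 * r + 2)) ≤
      t.den * (1 / t.den) := mul_le_mul_of_nonneg_left hle hd.le
  rw [mul_one_div_cancel hd.ne'] at h2
  rw [mul_assoc (t.den : ℝ)] at h1
  linarith

end Pool.Agent.LibTwo46
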